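import Pool.Agent.H.MP_ffad8e.C

set_option autoImplicit false

open Set Filter Topology TopologicalSpace

namespace Pool.Agent.H.MP_085bfa
open Pool.Agent.H.MP_ffad8e

def Dim (Z : Type) [TopologicalSpace Z] (n : ℕ) : Prop :=
  ∀ (ι : Type) [Finite ι] (U : ι → Set Z), (∀ i, IsOpen (U i)) → (⋃ i, U i) = Set.univ →
    ∃ (κ : Type) (_ : Finite κ) (V : κ → Set Z),
      (∀ k, IsOpen (V k)) ∧ (⋃ k, V k) = Set.univ ∧ (∀ k, ∃ i, V k ⊆ U i) ∧
      ∀ x, Nat.card {k // x ∈ V k} ≤ n + 1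

variable {X : Type} [TopologicalSpace X] [MetrizableSpace X]

/-- Eilenberg-Otto type theorem -/
lemma eo {n : ℕ} (h : Dim X n) (A B : Fin (n + 1) → Set X) (hA : ∀ i, IsClosed (A i))
    (hB : ∀ i, IsClosed (B i)) (hd : ∀ i, Disjoint (A i) (B i)) :
    ∃ A' B' : Fin (n + 1) → Set X, (∀ i, IsClosed (A' i) ∧ IsClosed (B' i) ∧
      Disjoint (A' i) (B' i) ∧ A i ⊆ A' i ∧ B i ⊆ B' i) ∧ ∀ x, ∃ i, x ∈ A' i ∪ B' i := by
  classical
  obtain ⟨κ, _, W, w1, w2, w3, w4⟩ := h (Fin (n + 1) → Bool)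
    (fun s => ⋂ i, bif s i then (A i)ᶜ else (B i)ᶜ)
    (fun s => isOpen_iInter_of_finite fun i => by
      cases s i
      exacts [(hB i).isOpen_compl, (hA i).isOpen_compl])
    (eq_univ_of_forall fun x => mem_iUnion.2 ⟨fun i => decide (x ∈ B i), mem_iInter.2 fun i => by
      by_cases e : x ∈ B i
      · simpa [e] using fun k => disjoint_left.1 (hd i) k e
      · simpa [e] using e⟩)
  have := Fintype.ofFinite κ
  have : ParacompactSpace X := by let := metrizableSpaceMetric X; infer_instance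
  obtain ⟨ρ, hρ⟩ := PartitionOfUnity.exists_isSubordinate isClosed_univ W w1 w2.ge
  have r : ∀ k x, 0 < ρ k x → x ∈ W k := fun k x hx => hρ k (subset_tsupport _ hx.ne')
  let G : Finset κ → Set X := fun S => {x | (S.Nonempty ∧ S.card ≤ n + 1) ∧
    ∀ k ∈ S, 0 < ρ k x ∧ ∀ l ∉ S, ρ l x < ρ k x}
  have g1 : ∀ S, IsOpen (G S) := fun S => by
    simp only [G, setOf_forall, setOf_and]
    exact (isOpen_const.inter isOpen_const).inter (isOpen_iInter_of_finite fun k =>
      isOpen_iInter_of_finite fun _ =>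
      (isOpen_lt continuous_const (ρ k).continuous).inter (isOpen_iInter_of_finite fun l =>
        isOpen_iInter_of_finite fun _ => isOpen_lt (ρ l).continuous (ρ k).continuous))
  have g2 : ⋃ S, G S = univ := eq_univ_of_forall fun x => by
    refine mem_iUnion.2 ⟨Finset.univ.filter fun k => 0 < ρ k x, ⟨?_, le_trans ?_ (w4 x)⟩,
      fun k hk => ⟨by simpa using hk, fun l hl => ?_⟩⟩
    · obtain ⟨k, hk⟩ := ρ.exists_pos (mem_univ x)
      exact ⟨k, by simpa using hk⟩
    · rw [Nat.card_eq_fintype_card, Fintype.card_subtype]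
      exact Finset.card_le_card fun k hk => by simpa using r k x (by simpa using hk)
    · simp only [Finset.mem_filter, Finset.mem_univ, true_and, not_lt] at hk hl
      exact hl.trans_lt hk
  have g3 : ∀ S T x, x ∈ G S → x ∈ G T → S.card = T.card → S = T := fun S T x a b e => by
    by_contra c
    obtain ⟨k, k1, k2⟩ := Finset.not_subset.1 fun s => c (Finset.eq_of_subset_of_card_le s e.ge)
    obtain ⟨l, l1, l2⟩ := Finset.not_subset.1 fun s =>
      c (Finset.eq_of_subset_of_card_le s e.le).symm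
    exact lt_asymm ((a.2 k k1).2 l l2) ((b.2 l l1).2 k k2)
  have g4 : ∀ S i, Disjoint (G S) (A i) ∨ Disjoint (G S) (B i) := fun S i => by
    rcases (G S).eq_empty_or_nonempty with e | ⟨x, ⟨⟨k, hk⟩, -⟩, -⟩
    · simp [e]
    · obtain ⟨s, hs⟩ := w3 k
      have q : ∀ y ∈ G S, y ∈ bif s i then (A i)ᶜ else (B i)ᶜ := fun y hy =>
        mem_iInter.1 (hs (r k y (hy.2 k hk).1)) i
      revert q
      cases s i
      exacts [fun q => .inr (disjoint_left.2 q), fun q => .inl (disjoint_left.2 q)]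
  obtain ⟨v, v1, -, v3⟩ := exists_iUnion_eq_closure_subset g1 (fun x => toFinite _) g2
  refine ⟨fun i => A i ∪ ⋃ S ∈ {S : Finset κ | S.card = i + 1 ∧ Disjoint (G S) (B i)},
      closure (v S),
    fun i => B i ∪ ⋃ S ∈ {S : Finset κ | S.card = i + 1 ∧ ¬Disjoint (G S) (B i)}, closure (v S),
    fun i => ⟨(hA i).union ((toFinite _).isClosed_biUnion fun _ _ => isClosed_closure),
      (hB i).union ((toFinite _).isClosed_biUnion fun _ _ => isClosed_closure),
      disjoint_left.2 ?_, subset_union_left, subset_union_left⟩, fun x => ?_⟩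
  · rintro x (a | a) (b | b)
    · exact disjoint_left.1 (hd i) a b
    · obtain ⟨S, s1, s2⟩ := mem_iUnion₂.1 b
      exact disjoint_left.1 ((g4 S i).resolve_right s1.2) (v3 S s2) a
    · obtain ⟨S, s1, s2⟩ := mem_iUnion₂.1 a
      exact disjoint_left.1 s1.2 (v3 S s2) b
    · obtain ⟨S, s1, s2⟩ := mem_iUnion₂.1 a
      obtain ⟨T, t1, t2⟩ := mem_iUnion₂.1 b
      exact t1.2 (g3 S T x (v3 S s2) (v3 T t2) (s1.1.trans t1.1.symm) ▸ s1.2)
  · obtain ⟨S, hS⟩ := mem_iUnion.1 (v1.ge (mem_univ x))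
    obtain ⟨⟨s1, s2⟩, -⟩ := v3 S (subset_closure hS)
    have s3 := s1.card_pos
    let i : Fin (n + 1) := ⟨S.card - 1, by omega⟩
    have e : S.card = i + 1 := by simp only [i]; omega
    by_cases c : Disjoint (G S) (B i)
    · exact ⟨i, .inl (.inr (mem_iUnion₂.2 ⟨S, ⟨e, c⟩, subset_closure hS⟩))⟩
    · exact ⟨i, .inr (.inr (mem_iUnion₂.2 ⟨S, ⟨e, c⟩, subset_closure hS⟩))⟩

lemma fat {P Q : Set X} (a1 : IsClosed P) (a2 : IsClosed Q) (a3 : Disjoint P Q) :
    ∃ q : Set X × Set X, (IsClosed q.1 ∧ IsClosed q.2 ∧ Disjoint q.1 q.2) ∧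
      P ⊆ interior q.1 ∧ Q ⊆ interior q.2 := by
  obtain ⟨V, v1, v2, v3⟩ := nrm a1 a2 a3
  obtain ⟨W, w1, w2, w3⟩ := nrm a2 isClosed_closure v3.symm
  exact ⟨(closure V, closure W), ⟨isClosed_closure, isClosed_closure, w3.symm⟩,
    v2.trans v1.subset_interior_closure, w2.trans w1.subset_interior_closure⟩

/-- covering dimension at most `n` gives a cover by `n + 1` zero-dimensional sets -/
lemma decomp_dim [SecondCountableTopology X] {n : ℕ} (h : Dim X n) :
    ∃ Z : Fin (n + 1) → Set X, (∀ i, D 1 (Z i)) ∧ ∀ x, ∃ i, x ∈ Z i := by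
  classical
  obtain ⟨O, o1, o2⟩ := cb (S := (univ : Set X)) (fun _ => True) trivial fun x _ U hU =>
    ⟨interior U, isOpen_interior, mem_interior_iff_mem_nhds.2 hU, interior_subset, trivial⟩
  let St := {p : Fin (n + 1) → ℕ × ℕ → Set X × Set X //
    ∀ i m, IsClosed (p i m).1 ∧ IsClosed (p i m).2 ∧ Disjoint (p i m).1 (p i m).2}
  obtain ⟨e, he⟩ := exists_surjective_nat (Fin (n + 1) → ℕ × ℕ)
  have st : ∀ (s : ℕ) (p : St), ∃ q : St, (∀ i m, (p.1 i m).1 ⊆ interior (q.1 i m).1 ∧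
      (p.1 i m).2 ⊆ interior (q.1 i m).2) ∧
      ∀ x, ∃ i, x ∈ (q.1 i (e s i)).1 ∪ (q.1 i (e s i)).2 := by
    rintro s ⟨p, hp⟩
    choose q q1 q2 using fun i m => fat (hp i m).1 (hp i m).2.1 (hp i m).2.2
    obtain ⟨A, B, a1, a2⟩ := eo h (fun i => (q i (e s i)).1) (fun i => (q i (e s i)).2)
      (fun i => (q1 _ _).1) (fun i => (q1 _ _).2.1) fun i => (q1 _ _).2.2
    refine ⟨⟨fun i m => if m = e s i then (A i, B i) else q i m, fun i m => ?_⟩, fun i m => ?_,
      by simpa using a2⟩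
    · dsimp only
      split_ifs
      exacts [⟨(a1 i).1, (a1 i).2.1, (a1 i).2.2.1⟩, q1 i m]
    · dsimp only
      split_ifs with c
      · subst c
        exact ⟨(q2 _ _).1.trans (interior_mono (a1 i).2.2.2.1),
          (q2 _ _).2.trans (interior_mono (a1 i).2.2.2.2)⟩
      · exact q2 i m
  choose g g1 g2 using st
  let s : ℕ → St := fun k => Nat.rec ⟨fun _ m => if closure (O m.1) ⊆ O m.2 then
    (closure (O m.1), (O m.2)ᶜ) else (∅, ∅), fun _ m => by
      dsimp only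
      split_ifs with c
      exacts [⟨isClosed_closure, (o1 _).1.isClosed_compl, disjoint_compl_right_iff_subset.2 c⟩,
        by simp]⟩ g k
  have m1 : ∀ i m, Monotone fun k => ((s k).1 i m).1 := fun i m =>
    monotone_nat_of_le_succ fun k => (g1 k (s k) i m).1.trans interior_subset
  have m2 : ∀ i m, Monotone fun k => ((s k).1 i m).2 := fun i m =>
    monotone_nat_of_le_succ fun k => (g1 k (s k) i m).2.trans interior_subset
  have o : ∀ f : ℕ → Set X, (∀ n, f n ⊆ interior (f (n + 1))) → IsOpen (⋃ n, f n) := fun f hf =>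
    isOpen_iff_mem_nhds.2 fun z hz => by
      obtain ⟨n, hn⟩ := mem_iUnion.1 hz
      exact mem_of_superset (mem_interior_iff_mem_nhds.1 (hf n hn)) (subset_iUnion f _)
  have d : ∀ i m, Disjoint (⋃ k, ((s k).1 i m).1) (⋃ k, ((s k).1 i m).2) := fun i m =>
    disjoint_iUnion_left.2 fun a => disjoint_iUnion_right.2 fun b =>
      ((s (max a b)).2 i m).2.2.mono (m1 i m (le_max_left a b)) (m2 i m (le_max_right a b))
  refine ⟨fun i => ⋂ m, (⋃ k, ((s k).1 i m).1) ∪ ⋃ k, ((s k).1 i m).2, fun i x _ U hU => ?_,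
    fun x => ?_⟩
  · obtain ⟨b, b1, b2⟩ := o2 x trivial U hU
    obtain ⟨C, c1, c2, c3⟩ := exists_mem_nhds_isClosed_subset ((o1 b).1.mem_nhds b1)
    obtain ⟨a, a1, a2⟩ := o2 x trivial C c1
    have c : closure (O a) ⊆ O b := (closure_minimal a2 c2).trans c3
    have s0 : (s 0).1 i (a, b) = (closure (O a), (O b)ᶜ) := if_pos c
    refine ⟨_, o _ fun k => (g1 k (s k) i (a, b)).1, mem_iUnion.2 ⟨0, ?_⟩, fun z hz => b2
      (not_not.1 fun h => disjoint_left.1 (d i (a, b)) hz (mem_iUnion.2 ⟨0, ?_⟩)),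
      eq_empty_of_forall_notMem fun z ⟨z0, z1, z2⟩ => ?_⟩
    · rw [s0]; exact subset_closure a1
    · rw [s0]; exact h
    · exact disjoint_left.1 ((d i (a, b)).closure_left (o _ fun k => (g1 k (s k) i (a, b)).2))
        (closure_mono inter_subset_left z1) ((mem_iInter.1 z0 (a, b)).resolve_left z2)
  · by_contra! hc
    simp only [mem_iInter, not_forall] at hc
    choose t ht using hc
    obtain ⟨k, rfl⟩ := he t
    obtain ⟨i, hi⟩ := g2 k (s k) x
    exact ht i (hi.imp (fun h => mem_iUnion.2 ⟨k + 1, h⟩) fun h => mem_iUnion.2 ⟨k + 1, h⟩)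

end Pool.Agent.H.MP_085bfa
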