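import Pool.Agent.H.MP_085bfa.A

set_option autoImplicit false

open Set Filter Topology TopologicalSpace

namespace Pool.Agent.H.MP_085bfa
open Pool.Agent.H.MP_ffad8e

lemma cantor {X : Type} [Nonempty X] (f : X → ℕ → Bool) (hf : Function.Injective f) :
    @SeparableSpace X (induced f inferInstance) ∧ @MetrizableSpace X (induced f inferInstance) ∧
      @smallInductiveDimension X (induced f inferInstance) = 0 := by
  let : TopologicalSpace X := induced f inferInstance
  have e : IsEmbedding f := ⟨⟨rfl⟩, hf⟩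
  have := e.secondCountableTopology
  refine ⟨inferInstance, e.metrizableSpace, smallInductiveDimension_eq 0
    (hasSmallInductiveDimensionLT_one_iff.2 ?_) (by simp)⟩
  refine (isTopologicalBasis_isClopen.isInducing e.isInducing).of_isOpen_of_subset
    (fun _ h => h.isOpen) ?_
  rintro _ ⟨s, hs, rfl⟩
  exact IsClopen.preimage hs e.continuous

lemma core {X ι : Type} [TopologicalSpace X] [MetrizableSpace X] [SecondCountableTopology X]
    [Nonempty X] (Z : ι → Set X) (z1 : ∀ i, D 1 (Z i)) (z2 : ∀ x, ∃ i, x ∈ Z i) :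
    ∃ t : ι → TopologicalSpace X, (∀ i, @SeparableSpace X (t i) ∧ @MetrizableSpace X (t i) ∧
      @smallInductiveDimension X (t i) = 0) ∧ ∀ U : Set X, IsOpen U ↔ ∀ i, IsOpen[t i] U := by
  classical
  choose V v1 v2 using fun i => cb (S := univ) (fun V => Disjoint (frontier V) (Z i)) (by simp)
    fun x _ U hU => sep1 (z1 i) x U hU
  let f : ι → X → ℕ → Bool := fun i x m => decide (x ∈ V i m)
  refine ⟨fun i => induced (f i) inferInstance, fun i => cantor (f i) fun x y e => ?_,
    fun U => ⟨fun h i => ?_, fun h => isOpen_iff_mem_nhds.2 fun x hx => ?_⟩⟩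
  · by_contra c
    obtain ⟨j, a1, a2⟩ := v2 i x trivial _ (compl_singleton_mem_nhds c)
    have : y ∈ V i j := by simpa [f, a1] using congrFun e j
    exact a2 this rfl
  · refine (@isOpen_iff_forall_mem_open X (induced (f i) inferInstance) U).2 fun x hx => ?_
    obtain ⟨j, a1, a2⟩ := v2 i x trivial U (h.mem_nhds hx)
    exact ⟨V i j, a2, ⟨(fun y => y j) ⁻¹' {true},
      (isOpen_discrete _).preimage (continuous_apply j), by ext; simp [f]⟩, a1⟩
  · obtain ⟨i, hi⟩ := z2 x
    obtain ⟨W, w1, rfl⟩ := h i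
    refine ContinuousAt.preimage_mem_nhds (continuousAt_pi.2 fun m => ?_) (w1.mem_nhds hx)
    refine Tendsto.congr' ?_ tendsto_const_nhds
    by_cases e : x ∈ V i m
    · filter_upwards [(v1 i m).1.mem_nhds e] with y hy
      simp [f, e, hy]
    · have : x ∉ closure (V i m) := fun k =>
        disjoint_left.1 (v1 i m).2 ((v1 i m).1.frontier_eq ▸ ⟨k, e⟩) hi
      filter_upwards [isClosed_closure.isOpen_compl.mem_nhds this] with y hy
      simp [f, e, mt (subset_closure (s := V i m) (a := y) ·) hy]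

lemma plane : ∃ Z : Fin 3 → Set (EuclideanSpace ℝ (Fin 2)), (∀ i, D 1 (Z i)) ∧
    ∀ x, ∃ i, x ∈ Z i := by
  let Q : Fin 3 → Set ℝ := fun i => range fun q : ℚ => (q : ℝ) + (i : ℕ) * √2
  have q1 : ∀ i a b, a < b → ∃ c ∈ Q i, a < c ∧ c < b := fun i a b h => by
    obtain ⟨q, h1, h2⟩ := exists_rat_btwn (sub_lt_sub_right h ((i : ℕ) * √2))
    exact ⟨_, ⟨q, rfl⟩, by linarith, by linarith⟩
  have q2 : ∀ i j r, r ∈ Q i → r ∈ Q j → i = j := by
    rintro i j _ ⟨p, rfl⟩ ⟨q, h⟩
    by_contra c
    have : ((i : ℕ) : ℝ) - (j : ℕ) ≠ 0 := sub_ne_zero.2 fun e => c (Fin.ext (by exact_mod_cast e))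
    refine irrational_sqrt_two ⟨(q - p) / ((i : ℕ) - (j : ℕ)), ?_⟩
    push_cast
    rw [div_eq_iff this]
    linarith
  let e := EuclideanSpace.equiv (Fin 2) ℝ
  refine ⟨fun i => e ⁻¹' {p | ∀ k, p k ∉ Q i}, fun i => (D_image e.toHomeomorph.isInducing).1
    (D.mono (S := {p | ∀ k, p k ∉ Q i}) (fun x _ U hU => ?_) (image_preimage_subset _ _)),
    fun x => ?_⟩
  · obtain ⟨r, r1, r2⟩ := Metric.mem_nhds_iff.1 hU
    choose a a1 a2 a3 using fun k => q1 i (x k - r) (x k) (by linarith)
    choose b b1 b2 b3 using fun k => q1 i (x k) (x k + r) (by linarith)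
    refine ⟨univ.pi fun k => Ioo (a k) (b k), isOpen_set_pi finite_univ fun _ _ => isOpen_Ioo,
      fun k _ => ⟨a3 k, b2 k⟩, fun y hy => r2 ((dist_pi_lt_iff r1).2 fun k => ?_),
      eq_empty_of_forall_notMem fun z ⟨z0, z1, z2⟩ => z2 fun k _ => ?_⟩
    · rw [Real.dist_eq, abs_lt]
      constructor <;> linarith [(hy k trivial).1, (hy k trivial).2, a2 k, b3 k]
    · have : z ∈ univ.pi fun k => Icc (a k) (b k) := closure_minimal
        (inter_subset_left.trans (pi_mono fun k _ => Ioo_subset_Icc_self))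
        (isClosed_set_pi fun _ _ => isClosed_Icc) z1
      exact ⟨(this k trivial).1.lt_of_ne fun h => z0 k (h ▸ a1 k),
        (this k trivial).2.lt_of_ne fun h => z0 k (h ▸ b1 k)⟩
  · by_contra! hc
    simp only [mem_preimage, mem_ofPred, not_forall, not_not] at hc
    choose k hk using hc
    have : Function.Injective k := fun i j h => q2 i j _ (hk i) (h ▸ hk j)
    simpa using Fintype.card_le_of_injective k this

end Pool.Agent.H.MP_085bfa
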