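import Pool.Agent.H.MP_085bfa.A

set_option autoImplicit false

open Set Filter Topology TopologicalSpace Metric

namespace Pool.Agent.H.MP_085bfa

lemma nb {X I : Type} [TopologicalSpace X] [MetrizableSpace X] (t : I → TopologicalSpace X)
    (h : ∀ U : Set X, IsOpen U ↔ ∀ i, IsOpen[t i] U) (p : X) (O : I → Set X)
    (o1 : ∀ i, IsOpen[t i] (O i)) (o2 : ∀ i, p ∈ O i) : insert p (⋃ i, O i) ∈ 𝓝 p := by
  by_contra c
  rw [← mem_interior_iff_mem_nhds, ← mem_compl_iff, ← closure_compl] at c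
  obtain ⟨x, x1, x2⟩ := mem_closure_iff_seq_limit.1 c
  have k : IsOpen (insert p (range x))ᶜ := x2.isCompact_insert_range.isClosed.isOpen_compl
  have e : IsOpen (range x)ᶜ := (h _).2 fun i => by
    have : (range x)ᶜ = (insert p (range x))ᶜ ∪ O i := by
      ext y
      refine ⟨fun a => ?_, ?_⟩
      · by_cases e : y = p
        exacts [.inr (e ▸ o2 i), .inl fun b => b.elim e a]
      · rintro (a | a) ⟨n, rfl⟩
        exacts [a (.inr ⟨n, rfl⟩), x1 n (.inr (mem_iUnion.2 ⟨i, a⟩))]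
    rw [this]
    exact @IsOpen.union X _ _ (t i) ((h _).1 k i) (o1 i)
  obtain ⟨n, hn⟩ := (x2.eventually (e.mem_nhds fun ⟨n, hn⟩ => x1 n (.inl hn))).exists
  exact hn ⟨n, rfl⟩

open Classical in
lemma count {X I K : Type} [Fintype I] [Nonempty I] [Fintype K] (c : I → X → K) (N : Set X) :
    ∀ (j : ℕ) (R : Finset (I × K)), (Finset.univ.filter fun S : Finset (I × K) => R ⊆ S ∧
      S.card ≤ R.card + j ∧ Minimal (fun S : Finset (I × K) => ∀ q ∈ N, ∃ i, (i, c i q) ∈ S) S).card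
        ≤ Fintype.card I ^ j
  | 0, R => by
    refine (Finset.card_le_card (t := {R}) fun S hS => ?_).trans (by simp)
    obtain ⟨a, b, -⟩ := (Finset.mem_filter.1 hS).2
    exact Finset.mem_singleton.2 (Finset.eq_of_subset_of_card_le a b).symm
  | j + 1, R => by
    by_cases h : ∀ q ∈ N, ∃ i, (i, c i q) ∈ R
    · refine (Finset.card_le_card (t := {R}) fun S hS => ?_).trans
        (by simpa using Nat.one_le_pow _ _ Fintype.card_pos)
      obtain ⟨a, -, b⟩ := (Finset.mem_filter.1 hS).2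
      exact Finset.mem_singleton.2 ((b.2 h a).antisymm a)
    · push Not at h
      obtain ⟨q, q1, q2⟩ := h
      refine (Finset.card_le_card fun S hS => ?_).trans ((Finset.card_biUnion_le_card_mul
        Finset.univ _ _ fun i _ => count c N j (insert (i, c i q) R)).trans (by simp [pow_succ']))
      obtain ⟨a, b, d⟩ := (Finset.mem_filter.1 hS).2
      obtain ⟨i, hi⟩ := d.1 q q1
      refine Finset.mem_biUnion.2 ⟨i, Finset.mem_univ _, Finset.mem_filter.2 ⟨Finset.mem_univ _,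
        Finset.insert_subset hi a, ?_, d⟩⟩
      rw [Finset.card_insert_of_notMem (q2 i)]
      omega

lemma cells {X K : Type} [TopologicalSpace X] [Finite K] (hd : Dim X 0) (V : K → Set X)
    (v1 : ∀ k, IsOpen (V k)) (v2 : ⋃ k, V k = univ) :
    ∃ c : X → K, (∀ p, p ∈ V (c p)) ∧ ∀ k, IsOpen {q | c q = k} := by
  obtain ⟨κ, _, W, w1, w2, w3, w4⟩ := hd K V v1 v2
  choose a ha using w3
  choose b hb using fun p => mem_iUnion.1 (w2.ge (mem_univ p))
  refine ⟨fun p => a (b p), fun p => ha _ (hb p), fun k => isOpen_iff_mem_nhds.2 fun p hp =>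
    mem_of_superset ((w1 _).mem_nhds (hb p)) fun q hq => ?_⟩
  have := Finite.card_le_one_iff_subsingleton.1 (w4 q)
  have e : b q = b p := congrArg Subtype.val (this.elim ⟨_, hb q⟩ ⟨_, hq⟩)
  exact (congrArg a e).trans hp

lemma lower {X I : Type} [MetricSpace X] [Fintype I] [Nonempty I] (t : I → TopologicalSpace X)
    (h : ∀ U : Set X, IsOpen U ↔ ∀ i, IsOpen[t i] U) (hd : ∀ i, @Dim X (t i) 0) :
    Dim X (Fintype.card I ^ Fintype.card I * (Fintype.card I + 1)) := by
  classical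
  intro ι _ U u1 u2
  obtain ⟨F, f1, -, f3⟩ := exists_iUnion_eq_closure_subset u1 (fun x => toFinite _) u2
  let V : Set ι → Set X := fun S => (⋂ j ∈ S, U j) ∩ ⋂ j ∈ Sᶜ, (closure (F j))ᶜ
  have v1 : ∀ S, IsOpen (V S) := fun S => ((toFinite _).isOpen_biInter fun j _ => u1 j).inter
    ((toFinite _).isOpen_biInter fun j _ => isClosed_closure.isOpen_compl)
  have v2 : ⋃ S, V S = univ := eq_univ_of_forall fun p => mem_iUnion.2 ⟨{j | p ∈ U j},
    mem_iInter₂.2 fun _ h => h, mem_iInter₂.2 fun j h k => h (f3 j k)⟩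
  have v3 : ∀ p, ∃ j, ∀ S, p ∈ V S → V S ⊆ U j := fun p => by
    obtain ⟨j, hj⟩ := mem_iUnion.1 (f1.ge (mem_univ p))
    exact ⟨j, fun S hS q hq => mem_iInter₂.1 hq.1 j
      (not_not.1 fun k => mem_iInter₂.1 hS.2 j k (subset_closure hj))⟩
  choose c c1 c2 using fun i => @cells X (Set ι) (t i) _ (hd i) V (fun S => (h _).1 (v1 S) i) v2
  have := Fintype.ofFinite (Set ι)
  let O : Finset (I × Set ι) → Set X := fun S => {p | (∃ r, ∀ a ∈ S, c a.1 r = a.2) ∧
    S.card ≤ Fintype.card I ∧ ∀ᶠ q in 𝓝 p, ∃ i, (i, c i q) ∈ S}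
  have o1 : ∀ S, IsOpen (O S) := fun S => isOpen_iff_mem_nhds.2 fun p hp =>
    hp.2.2.eventually_nhds.mono fun q hq => ⟨hp.1, hp.2.1, hq⟩
  have o2 : ∀ p, ∃ n, ∃ S, S.card = n ∧ p ∈ O S := fun p => by
    refine ⟨_, Finset.univ.image fun i => (i, c i p), rfl, ⟨p, by simp⟩, Finset.card_image_le, ?_⟩
    filter_upwards [nb t h p _ (fun i => c2 i (c i p)) fun i => rfl] with q hq
    rcases hq with rfl | hq
    · exact ⟨Classical.arbitrary I, by simp⟩
    · obtain ⟨i, hi⟩ := mem_iUnion.1 hq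
      exact ⟨i, Finset.mem_image.2 ⟨i, Finset.mem_univ _, by rw [show c i q = c i p from hi]⟩⟩
  let Y : ℕ → Set X := fun n => {p | Nat.find (o2 p) = n}
  refine ⟨{S // (O S).Nonempty}, inferInstance, fun S => O S ∩
    {x | infEDist x (Y S.1.card ∩ O S) < infEDist x (Y S.1.card \ O S)}, fun S => (o1 S).inter
      (isOpen_lt continuous_infEDist continuous_infEDist), eq_univ_of_forall fun p => ?_,
    fun ⟨S, p, ⟨r, hr⟩, _⟩ => ?_, fun x => ?_⟩
  · obtain ⟨S, s1, s2⟩ := Nat.find_spec (o2 p)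
    refine mem_iUnion.2 ⟨⟨S, p, s2⟩, s2, ?_⟩
    rw [mem_ofPred, infEDist_zero_of_mem (show p ∈ Y S.card ∩ O S from ⟨s1.symm, s2⟩),
      infEDist_pos_iff_notMem_closure]
    exact fun k => disjoint_left.1 (disjoint_sdiff_left.closure_left (o1 S)) k s2
  · obtain ⟨j, hj⟩ := v3 r
    refine ⟨j, fun q hq => ?_⟩
    obtain ⟨i, hi⟩ := hq.1.2.2.self_of_nhds
    exact hj _ (c1 i r) (by rw [show c i r = c i q from hr _ hi]; exact c1 i q)
  · let A := Finset.univ.filter fun S : Finset (I × Set ι) => x ∈ O S ∧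
      infEDist x (Y S.card ∩ O S) < infEDist x (Y S.card \ O S)
    refine le_trans ?_ (Nat.le_succ _)
    refine le_trans (b := A.card) ?_ ((Finset.card_le_mul_card_image (f := Finset.card) A _
      fun n hn => ?_).trans (Nat.mul_le_mul_left _ ?_))
    · rw [← Nat.card_eq_finsetCard]
      exact Nat.card_le_card_of_injective (fun S => ⟨S.1.1, Finset.mem_filter.2 ⟨Finset.mem_univ _,
        S.2⟩⟩) fun a b e => Subtype.ext (Subtype.ext (congrArg (fun z : A => z.1) e))
    · obtain ⟨S₀, s0, rfl⟩ := Finset.mem_image.1 hn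
      obtain ⟨T, t1, t2⟩ := (A.filter fun S => S.card = S₀.card).exists_min_image
        (fun S => infEDist x (Y S₀.card \ O S)) ⟨S₀, Finset.mem_filter.2 ⟨s0, rfl⟩⟩
      obtain ⟨t3, t4⟩ := Finset.mem_filter.1 t1
      have t5 := (Finset.mem_filter.1 t3).2.2
      rw [t4] at t5
      obtain ⟨y, y1, y2⟩ := infEDist_lt_iff.1 t5
      obtain ⟨N, n1, n2⟩ := (eventually_all.2 fun S : Finset (I × Set ι) => show ∀ᶠ q in 𝓝 y,
        y ∈ O S → ∃ i, (i, c i q) ∈ S from eventually_imp_distrib_left.2 fun k => k.2.2).exists_mem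
      refine le_trans (Finset.card_le_card fun S hS => Finset.mem_filter.2 ⟨Finset.mem_univ _,
        Finset.empty_subset _, ?_⟩) (count c N (Fintype.card I) ∅)
      have k : y ∈ O S := not_not.1 fun k =>
        (y2.trans_le (t2 S hS)).not_ge (infEDist_le_edist_of_mem ⟨y1.1, k⟩)
      refine ⟨by simpa using k.2.1, fun q hq => n2 q hq S k, fun R r1 r2 => ?_⟩
      refine (Finset.eq_of_subset_of_card_le r2 ?_).ge
      rw [(Finset.mem_filter.1 hS).2, ← show _ = S₀.card from y1.1]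
      exact Nat.find_min' _ ⟨R, rfl, k.1.imp fun r hr a ha => hr a (r2 ha),
        (Finset.card_le_card r2).trans k.2.1, mem_of_superset n1 r1⟩
    · refine (Finset.card_le_card (t := Finset.range (Fintype.card I + 1)) fun n hn => ?_).trans
        (by simp)
      obtain ⟨S, s1, rfl⟩ := Finset.mem_image.1 hn
      exact Finset.mem_range.2 (Nat.lt_succ_of_le (Finset.mem_filter.1 s1).2.1.2.1)

end Pool.Agent.H.MP_085bfa
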