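import Pool.Agent.H.MP_085bfa.C

set_option autoImplicit false

open Set Filter Topology TopologicalSpace Metric

namespace Pool.Agent.H.MP_085bfa

lemma clop {Z : Type} [TopologicalSpace Z] (hd : Dim Z 0) {F O : Set Z} (hF : IsClosed F)
    (hO : IsOpen O) (h : F ⊆ O) : ∃ C, IsClopen C ∧ F ⊆ C ∧ C ⊆ O := by
  obtain ⟨c, c1, c2⟩ := cells hd (fun b : Bool => bif b then O else Fᶜ)
    (fun b => by cases b; exacts [hF.isOpen_compl, hO]) (eq_univ_of_forall fun x => by
      by_cases e : x ∈ F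
      exacts [mem_iUnion.2 ⟨true, h e⟩, mem_iUnion.2 ⟨false, e⟩])
  refine ⟨{q | c q = true}, ⟨⟨by simpa [compl_ofPred] using c2 false⟩, c2 true⟩, fun x hx => ?_,
    fun x hx => ?_⟩
  · have := c1 x
    by_contra k
    rw [show c x = false by simpa using k] at this
    exact this hx
  · have := c1 x
    rwa [show c x = true from hx] at this

lemma label {Z : Type} [MetricSpace Z] (hd : Dim Z 0) {r : ℝ} (hr : 0 < r) :
    ∃ l : Z → Set Z, (∀ z, ∀ᶠ y in 𝓝 z, l y = l z) ∧ ∀ y z, l y = l z → dist y z < 2 * r := by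
  obtain ⟨v, v1, v2, v3, v4⟩ := precise_refinement (fun a : Z => ball a r) (fun _ => isOpen_ball)
    (eq_univ_of_forall fun x => mem_iUnion.2 ⟨x, mem_ball_self hr⟩)
  obtain ⟨w, w1, -, w3⟩ := exists_iUnion_eq_closure_subset v1 v3.point_finite v2
  choose C c1 c2 c3 using fun a => clop hd isClosed_closure (v1 a) (w3 a)
  have lf := v3.subset c3
  refine ⟨fun z => {a | z ∈ C a}, fun z => ?_, fun y z e => ?_⟩
  · filter_upwards [lf.iInter_compl_mem_nhds (fun a => (c1 a).1) z,
      (biInter_mem (lf.point_finite z)).2 fun a ha => (c1 a).2.mem_nhds ha] with y y1 y2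
    exact Set.ext fun a => ⟨fun h => not_not.1 fun k => mem_iInter₂.1 y1 a k h,
      fun h => mem_iInter₂.1 y2 a h⟩
  · obtain ⟨a, ha⟩ := mem_iUnion.1 (w1.ge (mem_univ y))
    have a1 : y ∈ C a := c2 a (subset_closure ha)
    have a2 : z ∈ C a := e.le a1
    linarith [dist_triangle_right y z a, mem_ball.1 (v4 a (c3 a a1)), mem_ball.1 (v4 a (c3 a a2))]

lemma label' {X : Type} [MetricSpace X] {Z : Set X} (hd : Dim Z 0) {r : ℝ} (hr : 0 < r) :
    ∃ e : X → Set Z ⊕ X, (∀ z ∈ Z, ∀ᶠ y in 𝓝 z, e y = e z) ∧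
      ∀ x y, e x = e y → dist x y < 4 * r := by
  classical
  obtain ⟨l, l1, l2⟩ := label hd hr
  have : ∀ z : Z, ∃ s > 0, s ≤ r ∧ ∀ y : Z, dist y z < 2 * s → l y = l z := fun z => by
    obtain ⟨s, s1, s2⟩ := Metric.eventually_nhds_iff.1 (l1 z)
    exact ⟨min (s / 2) r, by positivity, min_le_right _ _, fun y hy =>
      s2 (by linarith [min_le_left (s / 2) r])⟩
  choose s s1 s2 s3 using this
  have u : ∀ (x : X) (a b : Z), dist x a < s a → dist x b < s b → l a = l b := fun x a b h1 h2 => by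
    have := dist_triangle_left (a : X) b x
    rcases le_total (s a) (s b) with h | h
    · exact s3 b a (by rw [Subtype.dist_eq]; linarith)
    · exact (s3 a b (by rw [Subtype.dist_eq, dist_comm]; linarith)).symm
  let e : X → Set Z ⊕ X := fun x =>
    if h : ∃ z : Z, dist x z < s z then .inl (l h.choose) else .inr x
  have e1 : ∀ (x : X) (z : Z), dist x z < s z → e x = .inl (l z) := fun x z h => by
    have k : ∃ z : Z, dist x z < s z := ⟨z, h⟩
    simp only [e, dif_pos k, u x _ _ k.choose_spec h]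
  have e2 : ∀ x : X, (¬∃ z : Z, dist x z < s z) → e x = .inr x := fun x h => dif_neg h
  refine ⟨e, fun z hz => ?_, fun x y h => ?_⟩
  · filter_upwards [ball_mem_nhds z (s1 ⟨z, hz⟩)] with y hy
    rw [e1 y ⟨z, hz⟩ hy, e1 z ⟨z, hz⟩ (by simpa using s1 _)]
  · by_cases a : ∃ z : Z, dist x z < s z <;> by_cases b : ∃ z : Z, dist y z < s z
    · obtain ⟨⟨a, ha⟩, b, hb⟩ := And.intro a b
      rw [e1 x a ha, e1 y b hb] at h
      have := l2 a b (Sum.inl.inj h)
      rw [Subtype.dist_eq] at this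
      linarith [dist_triangle4_right x y a b, s2 a, s2 b]
    · rw [e1 x _ a.choose_spec, e2 y b] at h; cases h
    · rw [e1 y _ b.choose_spec, e2 x a] at h; cases h
    · rw [e2 x a, e2 y b] at h
      rw [Sum.inr.inj h, dist_self]; positivity

lemma ultra {X L : Type} [TopologicalSpace L] [DiscreteTopology L] (f : X → ℕ → L) :
    @Dim X (induced f inferInstance) 0 := by
  classical
  let : TopologicalSpace X := induced f inferInstance
  have hf : Continuous f := continuous_induced_dom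
  intro ι _ U u1 u2
  let C : X → ℕ → Set X := fun x n => {y | ∀ m < n, f y m = f x m}
  have c1 : ∀ x n, C x n ∈ 𝓝 x := fun x n => (eventually_all_finite (finite_lt_nat n)).2
    fun m _ => ((continuous_apply m).comp hf).continuousAt.eventually
      ((isOpen_discrete {f x m}).mem_nhds rfl)
  have c2 : ∀ x, ∃ n, ∃ j, C x n ⊆ U j := fun x => by
    obtain ⟨j, hj⟩ := mem_iUnion.1 (u2.ge (mem_univ x))
    obtain ⟨W, w1, w2⟩ := u1 j
    obtain ⟨I, u, a1, a2⟩ := isOpen_pi_iff.1 w1 (f x) (by rwa [← w2] at hj)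
    obtain ⟨n, hn⟩ := I.finite_toSet.bddAbove
    refine ⟨n + 1, j, fun y hy => w2.le (a2 fun m hm => ?_)⟩
    rw [hy m (Nat.lt_succ_of_le (hn hm))]
    exact (a1 m hm).2
  have c3 : ∀ x y n m, y ∈ C x n → m ≤ n → C y m = C x m := fun x y n m h e =>
    Set.ext fun z => forall₂_congr fun k hk => by rw [h k (hk.trans_le e)]
  have c4 : ∀ x, ∀ y ∈ C x (Nat.find (c2 x)), Nat.find (c2 y) = Nat.find (c2 x) := fun x y h => by
    rw [Nat.find_eq_iff, c3 x y _ _ h le_rfl]
    exact ⟨Nat.find_spec (c2 x), fun m hm => c3 x y _ _ h hm.le ▸ Nat.find_min (c2 x) hm⟩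
  have c5 : ∀ S : Set X, ∃ j : Option ι, (∃ i, S ⊆ U i) → ∃ i, j = some i ∧ S ⊆ U i := fun S => by
    by_cases e : ∃ i, S ⊆ U i
    exacts [⟨some e.choose, fun _ => ⟨_, rfl, e.choose_spec⟩⟩, ⟨none, fun h => (e h).elim⟩]
  choose J hJ using c5
  refine ⟨ι, inferInstance, fun i => {x | J (C x (Nat.find (c2 x))) = some i}, fun i =>
    isOpen_iff_mem_nhds.2 fun x hx => mem_of_superset (c1 x (Nat.find (c2 x))) fun y hy => ?_,
    eq_univ_of_forall fun x => ?_, fun i => ⟨i, fun x hx => ?_⟩, fun x =>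
      Finite.card_le_one_iff_subsingleton.2 ⟨fun a b => Subtype.ext
        (Option.some.inj (a.2.symm.trans b.2))⟩⟩
  · rw [mem_ofPred, c4 x y hy, c3 x y _ _ hy le_rfl]; exact hx
  · obtain ⟨i, hi, -⟩ := hJ _ (Nat.find_spec (c2 x))
    exact mem_iUnion.2 ⟨i, hi⟩
  · obtain ⟨j, hj, k⟩ := hJ _ (Nat.find_spec (c2 x))
    rw [Option.some.inj (hx.symm.trans hj)]
    exact k fun _ _ => rfl

lemma upper {X : Type} [τ : TopologicalSpace X] [MetrizableSpace X] {Z : Set X} (hd : Dim Z 0) :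
    ∃ t : TopologicalSpace X, @MetrizableSpace X t ∧ @Dim X t 0 ∧
      (∀ U : Set X, IsOpen[τ] U → IsOpen[t] U) ∧
      ∀ U : Set X, IsOpen[t] U → ∀ z ∈ Z, z ∈ U → U ∈ @nhds X τ z := by
  let := metrizableSpaceMetric X
  choose e e1 e2 using fun n : ℕ => label' hd (Nat.one_div_pos_of_nat (n := n))
  let : TopologicalSpace (Set Z ⊕ X) := ⊥
  have : DiscreteTopology (Set Z ⊕ X) := ⟨rfl⟩
  let f : X → ℕ → Set Z ⊕ X := fun x n => e n x
  have k : ∀ r > 0, ∃ n, ∀ x y, e n x = e n y → dist x y < r := fun r hr => by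
    obtain ⟨n, hn⟩ := exists_nat_one_div_lt (show 0 < r / 4 by positivity)
    exact ⟨n, fun x y h => by linarith [e2 n x y h]⟩
  have inj : Function.Injective f := fun x y h => eq_of_forall_dist_le fun r hr =>
    (k r hr).elim fun n hn => (hn x y (congrFun h n)).le
  refine ⟨induced f inferInstance, @IsEmbedding.metrizableSpace _ _ (induced f inferInstance) _ _ f
    (@IsEmbedding.mk _ _ (induced f inferInstance) _ f (.induced f) inj), ultra f, fun U h => ?_,
    fun U ⟨W, w1, w2⟩ z hz hU => ?_⟩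
  · refine (@isOpen_iff_forall_mem_open X (induced f inferInstance) U).2 fun x hx => ?_
    obtain ⟨r, r1, r2⟩ := Metric.isOpen_iff.1 h x hx
    obtain ⟨n, hn⟩ := k r r1
    exact ⟨{y | e n y = e n x}, fun y hy => r2 (hn y x hy), ⟨(fun y => y n) ⁻¹' {e n x},
      (isOpen_discrete _).preimage (continuous_apply n), rfl⟩, rfl⟩
  · subst w2
    exact ContinuousAt.preimage_mem_nhds (continuousAt_pi.2 fun m =>
      Tendsto.congr' ((e1 m z hz).mono fun _ h => h.symm) tendsto_const_nhds) (w1.mem_nhds hU)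

end Pool.Agent.H.MP_085bfa
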